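import Mathlib
import Pool.Agent.Helper29.SH.Goals

set_option autoImplicit false

namespace Pool.Agent.Helper57.SH

open Subgroup Pool.H83Shunkov Pool.Agent.Helper29.SH

/-- Invariance under `a` is inherited by powers. -/
lemma inv_pow {G : Type} [Group G] {a : G} {K : Subgroup G} (h : Inv a K) (i : ℕ) : Inv (a ^ i) K := by
  induction i with
  | zero =>
    intro k hk
    simpa using hk
  | succ i ih =>
    intro k hk
    have h1 : (a ^ (i + 1))⁻¹ * k * a ^ (i + 1) = a⁻¹ * ((a ^ i)⁻¹ * k * a ^ i) * a := by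
      rw [pow_succ]
      group
    rw [h1]
    exact h _ (ih k hk)

/-- A finite invariant subgroup is also invariant under the inverse. -/
lemma inv_symm {G : Type} [Group G] {a : G} {K : Subgroup G} (hK : (K : Set G).Finite)
    (h : Inv a K) : ∀ k ∈ K, a * k * a⁻¹ ∈ K := by
  intro k hk
  haveI : Finite K := hK
  have hinj : Function.Injective fun x : K => (⟨a⁻¹ * x * a, h x x.2⟩ : K) := by
    intro x y hxy
    have h1 : a⁻¹ * (x : G) * a = a⁻¹ * y * a := congrArg Subtype.val hxy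
    exact Subtype.ext (mul_left_cancel (mul_right_cancel h1))
  obtain ⟨x, hx⟩ := (Finite.injective_iff_surjective.1 hinj) ⟨k, hk⟩
  have h1 : a⁻¹ * (x : G) * a = k := congrArg Subtype.val hx
  have h2 : a * k * a⁻¹ = x := by
    rw [← h1]
    group
  rw [h2]
  exact x.2

/-- If `g` conjugates a generating set into the generated group then it conjugates the group into
itself. -/
lemma conj_closure {G : Type} [Group G] {T : Set G} {g : G}
    (h : ∀ t ∈ T, g⁻¹ * t * g ∈ closure T) : ∀ k ∈ closure T, g⁻¹ * k * g ∈ closure T := by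
  intro k hk
  induction hk using closure_induction with
  | mem x hx => exact h x hx
  | one => simp
  | mul x y _ _ hx hy =>
    have : g⁻¹ * (x * y) * g = (g⁻¹ * x * g) * (g⁻¹ * y * g) := by group
    rw [this]
    exact mul_mem hx hy
  | inv x _ hx =>
    have : g⁻¹ * x⁻¹ * g = (g⁻¹ * x * g)⁻¹ := by group
    rw [this]
    exact inv_mem hx

/-- A subgroup which embeds into a locally finite one. -/
lemma locFin_of_inj {G : Type} [Group G] {F N : Subgroup G} [N.Normal]
    (h : ∀ f ∈ F, f ∈ N → f = 1) (hl : IsLocFin (F.map (QuotientGroup.mk' N))) : IsLocFin F := by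
  have hinj : Function.Injective ((QuotientGroup.mk' N).comp F.subtype) := by
    rw [injective_iff_map_eq_one]
    intro x hx
    have h1 : (QuotientGroup.mk' N) (x : G) = 1 := hx
    rw [← MonoidHom.mem_ker, QuotientGroup.ker_mk'] at h1
    exact Subtype.ext (h x x.2 h1)
  have h1 := hl.comap_of_injective _ hinj
  have h2 : IsLocFin (⊤ : Subgroup F) := by
    refine IsLocFin.mono ?_ h1
    intro x _
    exact ⟨x, x.2, rfl⟩
  have h3 := h2.map F.subtype
  rwa [← MonoidHom.range_eq_map, Subgroup.range_subtype] at h3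

theorem t_C2 : S_SYC → S_LIFT → S_FROB → S_C2 := by
  intro hSYC hLIFT hFROB G _ a F V p q hs hq hVF hV hVq haV hQ hC
  obtain ⟨N₁, hN₁, hT, hl₁⟩ := hs.sep (({x | Qel a F q x} ∪ (Cen F V : Set G)) \ {1})
    ((hQ.union hC).diff) (by
      rintro x ⟨hx, hx1⟩
      refine ⟨?_, hx1⟩
      rcases hx with ⟨R, hR, -, -, -, hxR⟩ | hx
      · exact hR hxR
      · exact hx.1)
  refine locFin_of_inj ?_ hl₁
  intro f hfF hfN
  -- it suffices that `f` commutes with `V`
  have key : ∀ v ∈ V, v * f = f * v := by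
    intro v hv
    by_contra hne
    obtain ⟨c, hcd⟩ : ∃ c : G, c = f⁻¹ * v⁻¹ * f * v := ⟨_, rfl⟩
    have hcF : c ∈ F := by
      rw [hcd]
      exact mul_mem (mul_mem (mul_mem (inv_mem hfF) (inv_mem (hVF hv))) hfF) (hVF hv)
    have hc1 : c ≠ 1 := by
      intro h
      apply hne
      rw [hcd] at h
      have h1 : v * f * (f⁻¹ * v⁻¹ * f * v) = f * v := by group
      rw [h, mul_one] at h1
      exact h1
    obtain ⟨N₂, hN₂, hc₂, hl₂⟩ := hs.sep {c} (Set.finite_singleton c) (by
      rintro x rfl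
      exact ⟨hcF, hc1⟩)
    have hcN : c ∉ N₂ := hc₂ c rfl
    let π : G →* G ⧸ N₂ := QuotientGroup.mk' N₂
    have hker : ∀ x : G, π x = 1 ↔ x ∈ N₂ := fun x => by
      rw [← MonoidHom.mem_ker, QuotientGroup.ker_mk']
    have hFpi : FPF (π a) (F.map π) := by
      rintro _ ⟨g, hg, rfl⟩ hcomm
      rw [hker]
      refine hLIFT G a N₂ F hs.loc hs.fpf g hg ?_
      rw [← hker, map_mul, map_mul, map_mul, mul_assoc (π a⁻¹), hcomm, map_inv, map_inv]
      group
    -- the conjugates of `f`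
    have hap : ∀ i : ℕ, a ^ i = a ^ (i % p) := by
      intro i
      conv_lhs => rw [← Nat.mod_add_div i p, pow_add, pow_mul, hs.ha, one_pow, mul_one]
    have hQf : {x : G | ∃ w ∈ V, ∃ i : ℕ, x = w * a ^ i}.Finite := by
      have hfin : (Set.image2 (fun w (i : ℕ) => w * a ^ i) (V : Set G) (Set.Iio p)).Finite :=
        hV.image2 _ (Set.finite_Iio p)
      refine hfin.subset ?_
      rintro x ⟨w, hw, i, rfl⟩
      exact ⟨w, hw, i % p, Nat.mod_lt _ hs.hp.pos, by
        change w * a ^ (i % p) = w * a ^ i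
        rw [← hap]⟩
    obtain ⟨Q, hQd⟩ : ∃ Q : Set G, Q = {x : G | ∃ w ∈ V, ∃ i : ℕ, x = w * a ^ i} := ⟨_, rfl⟩
    rw [← hQd] at hQf
    have hQa : ∀ x ∈ Q, x * a ∈ Q := by
      rw [hQd]
      rintro x ⟨w, hw, i, rfl⟩
      exact ⟨w, hw, i + 1, by rw [pow_succ, mul_assoc]⟩
    have hQv : ∀ x ∈ Q, ∀ u ∈ V, x * u ∈ Q := by
      rw [hQd]
      rintro x ⟨w, hw, i, rfl⟩ u hu
      refine ⟨w * (a ^ i * u * (a ^ i)⁻¹), mul_mem hw (inv_symm hV (inv_pow haV i) u hu), i, ?_⟩
      group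
    have hQ1 : (1 : G) ∈ Q := by
      rw [hQd]
      exact ⟨1, one_mem _, 0, by simp⟩
    have hQF : ∀ x ∈ Q, x⁻¹ * f * x ∈ F ∧ x⁻¹ * f * x ∈ N₁ := by
      rw [hQd]
      rintro x ⟨w, hw, i, rfl⟩
      constructor
      · have h1 : (w * a ^ i)⁻¹ * f * (w * a ^ i) = (a ^ i)⁻¹ * (w⁻¹ * f * w) * a ^ i := by group
        rw [h1]
        exact inv_pow hs.inv i _ (mul_mem (mul_mem (inv_mem (hVF hw)) hfF) (hVF hw))
      · have h1 := hN₁.conj_mem f hfN (w * a ^ i)⁻¹
        rwa [inv_inv] at h1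
    obtain ⟨T, hTd⟩ : ∃ T : Set (G ⧸ N₂), T = (fun x => π (x⁻¹ * f * x)) '' Q := ⟨_, rfl⟩
    have hTf : T.Finite := by
      rw [hTd]
      exact hQf.image _
    have hE1 : closure T ≤ (F ⊓ N₁).map π := by
      rw [closure_le, hTd]
      rintro _ ⟨x, hx, rfl⟩
      exact ⟨x⁻¹ * f * x, hQF x hx, rfl⟩
    have hEF : closure T ≤ F.map π := hE1.trans (map_mono inf_le_left)
    have hEf : ((closure T : Subgroup (G ⧸ N₂)) : Set (G ⧸ N₂)).Finite := by
      have h1 := hl₂ hTf.toFinset (by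
        rw [Set.Finite.coe_toFinset]
        exact Subgroup.subset_closure.trans hEF)
      rwa [Set.Finite.coe_toFinset] at h1
    have hEa : Inv (π a) (closure T) := by
      apply conj_closure
      rw [hTd]
      rintro _ ⟨x, hx, rfl⟩
      apply Subgroup.subset_closure
      refine ⟨x * a, hQa x hx, ?_⟩
      simp only [map_mul, map_inv, mul_inv_rev, mul_assoc]
    have hEv : ∀ u ∈ V.map π, ∀ e ∈ closure T, u⁻¹ * e * u ∈ closure T := by
      rintro _ ⟨u, hu, rfl⟩
      apply conj_closure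
      rw [hTd]
      rintro _ ⟨x, hx, rfl⟩
      apply Subgroup.subset_closure
      refine ⟨x * u, hQv x hx u hu, ?_⟩
      simp only [map_mul, map_inv, mul_inv_rev, mul_assoc]
    have hVpf : ((V.map π : Subgroup (G ⧸ N₂)) : Set (G ⧸ N₂)).Finite := by
      rw [coe_map]
      exact hV.image _
    have hVpa : Inv (π a) (V.map π) := by
      rintro _ ⟨u, hu, rfl⟩
      exact ⟨a⁻¹ * u * a, haV u hu, by simp only [map_mul, map_inv]⟩
    have hqE : ¬ q ∣ Nat.card (closure T : Subgroup (G ⧸ N₂)) := by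
      intro hdiv
      haveI : Finite (closure T : Subgroup (G ⧸ N₂)) := hEf
      haveI : Fact q.Prime := ⟨hq⟩
      obtain ⟨⟨y, hyE⟩, hy⟩ := exists_prime_orderOf_dvd_card' q hdiv
      rw [Subgroup.orderOf_mk] at hy
      obtain ⟨e, ⟨heF, heN⟩, rfl⟩ := hE1 hyE
      obtain ⟨K, hKF, hKf, hKa, heK⟩ := hs.loc e heF
      have hK1f : ((K ⊓ N₁ : Subgroup G) : Set G).Finite := hKf.subset inf_le_left
      have hK1a : Inv a (K ⊓ N₁) := by
        intro k hk
        refine ⟨hKa k hk.1, ?_⟩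
        have h1 := hN₁.conj_mem k hk.2 a⁻¹
        rwa [inv_inv] at h1
      have hK1p : FPF a (K ⊓ N₁) := fun k hk => hs.fpf k (hKF hk.1)
      obtain ⟨S, hSK, hSc, hSa, -⟩ := hSYC G a (K ⊓ N₁) p q hK1f hK1a hK1p hs.hp hs.ha hq
      have hSb : S = ⊥ := by
        rw [Subgroup.eq_bot_iff_forall]
        intro s hs'
        by_contra hs1
        refine hT s ⟨Or.inl ⟨S, hSK.trans (inf_le_left.trans hKF), hK1f.subset hSK, hSa,
          IsPGroup.of_card hSc, hs'⟩, hs1⟩ (hSK hs').2
      rw [hSb, Subgroup.card_bot] at hSc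
      haveI : Finite (K ⊓ N₁ : Subgroup G) := hK1f
      have h0 : (Nat.card (K ⊓ N₁ : Subgroup G)).factorization q = 0 := by
        by_contra hne0
        have h1 : 1 < q ^ (Nat.card (K ⊓ N₁ : Subgroup G)).factorization q :=
          Nat.one_lt_pow hne0 hq.one_lt
        omega
      have h1 : q ∣ Nat.card (K ⊓ N₁ : Subgroup G) := by
        have h2 : q ∣ orderOf e := by
          rw [← hy]
          exact orderOf_map_dvd π e
        have h3 : orderOf e ∣ Nat.card (K ⊓ N₁ : Subgroup G) := by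
          have h4 := orderOf_dvd_natCard (⟨e, ⟨heK, heN⟩⟩ : (K ⊓ N₁ : Subgroup G))
          rw [← Subgroup.orderOf_coe] at h4
          exact h4
        exact h2.trans h3
      have h2 : 0 < (Nat.card (K ⊓ N₁ : Subgroup G)).factorization q :=
        hq.factorization_pos_of_dvd Nat.card_pos.ne' h1
      omega
    have hcomm := hFROB (G ⧸ N₂) (π a) (closure T) (V.map π) p q hs.hp hq
      (by rw [← map_pow, hs.ha, map_one]) hEf hVpf (hVq.map π) hqE hEa hVpa
      (fun k hk => hFpi k (hEF hk)) (fun k hk => hFpi k (map_mono hVF hk)) hEv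
      (π v) ⟨v, hv, rfl⟩ (π f) (by
        apply Subgroup.subset_closure
        rw [hTd]
        exact ⟨1, hQ1, by simp⟩)
    apply hcN
    rw [← hker, hcd]
    simp only [map_mul, map_inv]
    rw [mul_assoc, ← hcomm]
    group
  by_contra hf1
  refine hT f ⟨Or.inr ⟨hfF, ?_⟩, hf1⟩ hfN
  exact mem_centralizer_iff.2 key

end Pool.Agent.Helper57.SH
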