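import Mathlib
import Pool.Agent.Helper29.SH.Goals

set_option autoImplicit false

namespace Pool.Agent.Helper57.SH

open Subgroup Pool.H83Shunkov Pool.Agent.Helper29.SH

/-- An element which conjugates a finite subgroup into itself normalises it. -/
lemma mem_norm_of_conj {M : Type} [Group M] {S : Subgroup M} (hS : (S : Set M).Finite) {x : M}
    (h : ∀ s ∈ S, x⁻¹ * s * x ∈ S) : x ∈ normalizer (S : Set M) := by
  haveI : Finite (S : Set M) := hS
  have h1 : x⁻¹ ∈ normalizer (S : Set M) := by
    apply mem_normalizer_fintype
    intro n hn
    rw [inv_inv]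
    exact h n hn
  have h2 := inv_mem h1
  rwa [inv_inv] at h2

theorem t_FROB : S_SYE → S_NRM → S_FRS → S_FROB := by
  intro hSYE hNRM hFRS M _ a E V p q hp hq ha hE hV hVq hqE haE haV hfE hfV hVE
  have hle : Cen E V ≤ E := inf_le_left
  haveI hEf : Finite E := hE
  have hCf : ((Cen E V : Subgroup M) : Set M).Finite := hE.subset hle
  haveI : Finite (Cen E V) := hCf
  have hdvd : Nat.card E ∣ Nat.card (Cen E V) := by
    rw [← Nat.factorization_prime_le_iff_dvd Nat.card_pos.ne' Nat.card_pos.ne']
    intro r hr
    by_cases hrE : r ∣ Nat.card E
    · obtain ⟨S, hSE, hSc, haS⟩ := hSYE M a E p r hE haE hfE hp ha hr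
      have hSf : (S : Set M).Finite := hE.subset hSE
      have hVS := hNRM M a E V S p q r hp hq hr ha hE hV hVq hqE haE haV hfE hfV hVE hSE hSc haS
      have haN : a ∈ normalizer (S : Set M) := mem_norm_of_conj hSf haS
      have hVN : V ≤ normalizer (S : Set M) := fun v hv => mem_norm_of_conj hSf (hVS v hv)
      have hSN : S ≤ normalizer (S : Set M) := le_normalizer
      have hrq : r ≠ q := by
        rintro rfl
        exact hqE hrE
      have hcm : ∀ v ∈ V, ∀ s ∈ S, v * s = s * v := by
        have hS'f : ((S.subgroupOf (normalizer (S : Set M)) :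
            Subgroup (normalizer (S : Set M))) : Set (normalizer (S : Set M))).Finite := by
          have h := hSf.preimage (f := (Subtype.val : normalizer (S : Set M) → M))
            Subtype.val_injective.injOn
          exact h
        have hV'f : ((V.subgroupOf (normalizer (S : Set M)) :
            Subgroup (normalizer (S : Set M))) : Set (normalizer (S : Set M))).Finite := by
          have h := hV.preimage (f := (Subtype.val : normalizer (S : Set M) → M))
            Subtype.val_injective.injOn
          exact h
        have hSr : IsPGroup r S := IsPGroup.of_card hSc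
        have hS'r : IsPGroup r (S.subgroupOf (normalizer (S : Set M))) :=
          hSr.of_equiv (subgroupOfEquivOfLe hSN).symm
        have hV'q : IsPGroup q (V.subgroupOf (normalizer (S : Set M))) :=
          hVq.of_equiv (subgroupOfEquivOfLe hVN).symm
        haveI : Finite (V.subgroupOf (normalizer (S : Set M))) := hV'f
        have hrV : ¬ r ∣ Nat.card (V.subgroupOf (normalizer (S : Set M))) := by
          haveI : Fact q.Prime := ⟨hq⟩
          obtain ⟨k, hk⟩ := (IsPGroup.iff_card).1 hV'q
          rw [hk]
          intro h
          exact hrq ((Nat.prime_dvd_prime_iff_eq hr hq).1 (hr.dvd_of_dvd_pow h))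
        have key := hFRS (normalizer (S : Set M)) ⟨a, haN⟩ (S.subgroupOf _) (V.subgroupOf _) p r
          normal_in_normalizer hp hr (Subtype.ext (by simpa using ha)) hS'f hV'f hS'r hrV
          (fun k hk => haV k hk) (fun k hk h => by
            have h1 : (k : M) * a = a * k := congrArg Subtype.val h
            exact Subtype.ext (hfE k (hSE hk) h1)) (fun k hk h => by
            have h1 : (k : M) * a = a * k := congrArg Subtype.val h
            exact Subtype.ext (hfV k hk h1))
        intro v hv s hs
        exact congrArg Subtype.val (key ⟨v, hVN hv⟩ hv ⟨s, hSN hs⟩ hs)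
      have hSC : S ≤ Cen E V := by
        refine le_inf hSE ?_
        intro s hs
        rw [mem_centralizer_iff]
        intro v hv
        exact hcm v hv s hs
      have h1 : r ^ (Nat.card E).factorization r ∣ Nat.card (Cen E V) := by
        rw [← hSc]
        exact card_dvd_of_le hSC
      exact (hr.pow_dvd_iff_le_factorization Nat.card_pos.ne').1 h1
    · rw [Nat.factorization_eq_zero_of_not_dvd hrE]
      exact Nat.zero_le _
  have heq : Cen E V = E :=
    eq_of_le_of_card_ge hle (Nat.le_of_dvd Nat.card_pos hdvd)
  intro v hv e he
  rw [← heq] at he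
  exact (mem_centralizer_iff.1 he.2) v hv

end Pool.Agent.Helper57.SH
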